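import Pool.Agent.H.MP_78de02_pr.D

set_option autoImplicit false

namespace Pool.Agent.Results.MP_78de02_pr.RankZero

open MeasureTheory Filter Topology

/-- The matrix supported on `σ`: the entry in row `i` and column `j` is `ω j i` when `i ∈ σ j`,
and `0` otherwise. -/
noncomputable def X {p : ℕ} [Fact p.Prime] {n : ℕ} (σ : Fin n → Finset (Fin n))
    (ω : Fin n → Fin n → ℤ_[p]) : Matrix (Fin n) (Fin n) ℤ_[p] :=
  Matrix.of fun i j => if i ∈ σ j then ω j i else 0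

theorem result (p : ℕ) [Fact p.Prime] [MeasurableSpace ℤ_[p]] [BorelSpace ℤ_[p]]
    (μ : Measure ℤ_[p]) [μ.IsAddHaarMeasure] [IsProbabilityMeasure μ]
    (σ : (n : ℕ) → Fin n → Finset (Fin n)) :
    (∀ (G : Type) [AddCommGroup G] [Finite G], (∃ e : ℕ, Nat.card G = p ^ e) →
      Tendsto (fun n => (Measure.pi fun _ : Fin n => Measure.pi fun _ : Fin n => μ).real
        {ω | Nonempty (((Fin n → ℤ_[p]) ⧸ LinearMap.range (X (σ n) ω).mulVecLin) ≃+ G)}) atTop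
        (𝓝 ((∏' i : ℕ, (1 - ((p : ℝ) ^ (i + 1))⁻¹)) / Nat.card (AddAut G)))) ↔
    Tendsto (fun n => (Measure.pi fun _ : Fin n => Measure.pi fun _ : Fin n => μ).real
        {ω | ((X (σ n) ω).map PadicInt.toZMod).det ≠ 0}) atTop
        (𝓝 (∏' i : ℕ, (1 - ((p : ℝ) ^ (i + 1))⁻¹))) := by
  have e1 : ∀ (G : Type) [AddCommGroup G] (n : ℕ) (ω : Fin n → Fin n → ℤ_[p]),
      Nonempty (((Fin n → ℤ_[p]) ⧸ LinearMap.range (X (σ n) ω).mulVecLin) ≃+ G) ↔
        H.MP_78de02_pr.Cok G (H.MP_78de02_pr.cols (σ n) ω) := by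
    intro G _ n ω
    rw [Matrix.range_mulVecLin]
    rfl
  have e2 : ∀ (n : ℕ) (ω : Fin n → Fin n → ℤ_[p]), ((X (σ n) ω).map PadicInt.toZMod).det ≠ 0 ↔
      ω ∈ H.MP_78de02_pr.II (σ n) Finset.univ := by
    intro n ω
    rw [H.MP_78de02_pr.II_univ, H.MP_78de02_pr.span_top_iff, ← isUnit_iff_ne_zero,
      ← Matrix.isUnit_iff_isUnit_det, ← Matrix.linearIndependent_cols_iff_isUnit]
    rfl
  simp only [e1, e2, Set.ofPred_mem_eq]
  refine ⟨fun h => ?_, fun h G _ _ ⟨e, he⟩ => H.MP_78de02_pr.main μ σ h G e he⟩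
  have := h PUnit ⟨0, by simp⟩
  simp only [H.MP_78de02_pr.cok_unit, Set.ofPred_mem_eq] at this
  have e3 : Nat.card (AddAut PUnit.{1}) = 1 :=
    Nat.card_eq_one_iff_unique.2 ⟨⟨fun a b => AddEquiv.ext fun _ => rfl⟩, ⟨AddEquiv.refl _⟩⟩
  rwa [e3, Nat.cast_one, div_one] at this

end Pool.Agent.Results.MP_78de02_pr.RankZero
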